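import Pool.Agent.H62.Per.Defs

/-! Module END of the distinct perimeters project (MP_588c6d_co): Cauchy-Schwarz. -/

set_option autoImplicit false

open Finset

namespace Pool.Agent.H51.Per

open Pool.Agent.H62.Per

/-- two different branches: few common pairs -/
lemma pairs_le (hT : TWO) (P : Finset Pl) (χ : Pl → ℕ) (p q p' q' : Pl)
    (hne : ¬ ((p' = p ∧ q' = q) ∨ (p' = q ∧ q' = p))) [DecidableEq Pl]
    [DecidablePred (fun s : Pl × Pl => Rel p q s.1 s.2 ∧ Rel p' q' s.1 s.2)] :
    ((P.offDiag.filter (fun s => χ s.1 = χ s.2)).filter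
      (fun s => Rel p q s.1 s.2 ∧ Rel p' q' s.1 s.2)).card ≤ 5 * P.card := by
  classical
  set F := (P.offDiag.filter (fun s => χ s.1 = χ s.2)).filter
      (fun s => Rel p q s.1 s.2 ∧ Rel p' q' s.1 s.2) with hF
  have hmap : ∀ s ∈ F, s.1 ∈ P := by
    intro s hs
    simp only [hF, mem_filter, mem_offDiag] at hs
    exact hs.1.1.1
  rw [Finset.card_eq_sum_card_fiberwise hmap]
  have hbd : ∀ x ∈ P, (F.filter (fun s => s.1 = x)).card ≤ 5 := by
    intro x hx
    by_cases hem : (F.filter (fun s => s.1 = x)) = ∅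
    · rw [hem]; simp
    · obtain ⟨s0, hs0⟩ := Finset.nonempty_iff_ne_empty.mpr hem
      simp only [hF, mem_filter, mem_offDiag] at hs0
      obtain ⟨⟨_, hR, hR'⟩, hx0⟩ := hs0
      have hND : ND p q (dd p x - dd q x) := by
        have := hR.2.2.1; rwa [hx0] at this
      have hND' : ND p' q' (dd p' x - dd q' x) := by
        have := hR'.2.2.1; rwa [hx0] at this
      have h5 := hT p q p' q' _ _ hND hND' hne ((F.filter (fun s => s.1 = x)).image Prod.snd)
        (by
          intro y hy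
          simp only [mem_image, hF, mem_filter] at hy
          obtain ⟨s, ⟨⟨_, h1, h2⟩, h3⟩, h4⟩ := hy
          have e1 := h1.2.1
          have e2 := h2.2.1
          rw [h3, h4] at e1 e2
          exact ⟨e1.symm, e2.symm⟩)
      refine le_trans (le_of_eq ?_) h5
      symm
      apply Finset.card_image_of_injOn
      intro s hs s' hs' hss
      simp only [coe_filter, Set.mem_ofPred_eq] at hs hs'
      exact Prod.ext (hs.2.trans hs'.2.symm) hss
  calc ∑ x ∈ P, (F.filter (fun s => s.1 = x)).card ≤ ∑ _x ∈ P, 5 := Finset.sum_le_sum hbd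
    _ = 5 * P.card := by simp [mul_comm]

theorem end_of (hT : TWO) : END := by
  intro P χ ψ
  classical
  set A := P.offDiag.filter (fun s => χ s.1 = χ s.2) with hA
  set B := P.offDiag.filter (fun t => ψ t.1 = ψ t.2) with hB
  have hNN : NN P χ ψ = ∑ s ∈ A, ∑ t ∈ B, (if Rel t.1 t.2 s.1 s.2 then 1 else 0) := by
    have : NN P χ ψ = ((A ×ˢ B).filter (fun s => Rel s.2.1 s.2.2 s.1.1 s.1.2)).card := by
      unfold NN
      congr 1
      ext s
      simp only [hA, hB, mem_filter, mem_product]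
      tauto
    rw [this, card_filter, sum_product]
  have hCS : (NN P χ ψ) ^ 2 ≤ A.card *
      ∑ s ∈ A, (∑ t ∈ B, (if Rel t.1 t.2 s.1 s.2 then 1 else 0)) ^ 2 := by
    rw [hNN]
    exact sq_sum_le_card_mul_sum_sq
  have hsum : ∑ s ∈ A, (∑ t ∈ B, (if Rel t.1 t.2 s.1 s.2 then 1 else 0)) ^ 2
      = ∑ t ∈ B, ∑ t' ∈ B,
        (A.filter (fun s => Rel t.1 t.2 s.1 s.2 ∧ Rel t'.1 t'.2 s.1 s.2)).card := by
    have h1 : ∀ s ∈ A, (∑ t ∈ B, (if Rel t.1 t.2 s.1 s.2 then 1 else 0)) ^ 2
        = ∑ t ∈ B, ∑ t' ∈ B,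
          (if Rel t.1 t.2 s.1 s.2 ∧ Rel t'.1 t'.2 s.1 s.2 then 1 else 0) := by
      intro s _
      rw [sq, Finset.sum_mul_sum]
      refine Finset.sum_congr rfl fun t _ => Finset.sum_congr rfl fun t' _ => ?_
      by_cases h1 : Rel t.1 t.2 s.1 s.2 <;> by_cases h2 : Rel t'.1 t'.2 s.1 s.2 <;> simp [h1, h2]
    rw [Finset.sum_congr rfl h1, Finset.sum_comm]
    refine Finset.sum_congr rfl fun t _ => ?_
    rw [Finset.sum_comm]
    refine Finset.sum_congr rfl fun t' _ => ?_
    rw [card_filter]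
  have hin : ∀ t ∈ B, ∑ t' ∈ B,
      (A.filter (fun s => Rel t.1 t.2 s.1 s.2 ∧ Rel t'.1 t'.2 s.1 s.2)).card
      ≤ 5 * P.card * B.card + 2 * A.card := by
    intro t _
    have hb : ∀ t' ∈ B,
        (A.filter (fun s => Rel t.1 t.2 s.1 s.2 ∧ Rel t'.1 t'.2 s.1 s.2)).card
        ≤ 5 * P.card + (if t' = t ∨ t' = t.swap then A.card else 0) := by
      intro t' _
      by_cases hs : t' = t ∨ t' = t.swap
      · rw [if_pos hs]
        exact le_trans (Finset.card_filter_le _ _) (Nat.le_add_left _ _)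
      · rw [if_neg hs, add_zero]
        refine pairs_le hT P χ t.1 t.2 t'.1 t'.2 ?_
        rintro (⟨h1, h2⟩ | ⟨h1, h2⟩)
        · exact hs (Or.inl (Prod.ext h1 h2))
        · exact hs (Or.inr (Prod.ext (by simpa using h1) (by simpa using h2)))
    refine le_trans (Finset.sum_le_sum hb) ?_
    rw [Finset.sum_add_distrib, Finset.sum_const, smul_eq_mul, ← Finset.sum_filter,
      Finset.sum_const, smul_eq_mul]
    have hc : (B.filter (fun t' => t' = t ∨ t' = t.swap)).card ≤ 2 := by
      refine le_trans (Finset.card_le_card (t := {t, t.swap}) ?_) Finset.card_le_two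
      intro u hu
      simp only [mem_filter] at hu
      simp only [mem_insert, mem_singleton]
      exact hu.2
    have := Nat.mul_le_mul_right A.card hc
    calc B.card * (5 * P.card) + (B.filter (fun t' => t' = t ∨ t' = t.swap)).card * A.card
        ≤ B.card * (5 * P.card) + 2 * A.card := by omega
      _ = 5 * P.card * B.card + 2 * A.card := by ring
  have hfin : ∑ t ∈ B, ∑ t' ∈ B,
      (A.filter (fun s => Rel t.1 t.2 s.1 s.2 ∧ Rel t'.1 t'.2 s.1 s.2)).card
      ≤ 5 * P.card * B.card ^ 2 + 2 * B.card * A.card := by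
    refine le_trans (Finset.sum_le_sum hin) ?_
    rw [Finset.sum_const, smul_eq_mul]
    exact le_of_eq (by ring)
  rw [hsum] at hCS
  have hprsA : prs P χ = A.card := by rw [hA]; unfold prs; congr
  have hprsB : prs P ψ = B.card := by rw [hB]; unfold prs; congr
  rw [hprsA, hprsB]
  exact le_trans hCS (Nat.mul_le_mul_left _ hfin)

end Pool.Agent.H51.Per
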